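import Pool.Agent.Helper64.LN.GoalsC

/-!
# LN-PU1: moving a point in a disc
-/

set_option autoImplicit false

namespace Pool.Agent.Helper93.LN

open Pool.Agent.Helper64.LN

/-- The radius of the support. -/
noncomputable def rho (a : ℂ) : ℝ := (1 + ‖a‖) / 2

/-- `0` goes to `a`. -/
noncomputable def ff (a z : ℂ) : ℂ := z + ((max 0 (1 - ‖z‖ / rho a) : ℝ) : ℂ) * a

noncomputable def cc (a w : ℂ) : ℝ := a.re * (w.re - a.re) + a.im * (w.im - a.im)

noncomputable def NN (a w : ℂ) : ℝ := (w.re - a.re) ^ 2 + (w.im - a.im) ^ 2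

noncomputable def DD (a : ℂ) : ℝ := rho a ^ 2 - ‖a‖ ^ 2

/-- The gauge. -/
noncomputable def ss (a w : ℂ) : ℝ :=
  (cc a w + Real.sqrt (cc a w ^ 2 + DD a * NN a w)) / DD a

/-- The inverse of `ff a`. -/
noncomputable def gg (a w : ℂ) : ℂ := w - ((max 0 (1 - ss a w) : ℝ) : ℂ) * a

theorem nsq (z : ℂ) : ‖z‖ ^ 2 = z.re ^ 2 + z.im ^ 2 := by
  rw [← Complex.normSq_eq_norm_sq, Complex.normSq_apply]
  ring

theorem rho_pos (a : ℂ) : 0 < rho a := by
  unfold rho
  positivity

theorem lt_rho {a : ℂ} (ha : ‖a‖ < 1) : ‖a‖ < rho a := by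
  unfold rho
  linarith

theorem rho_lt {a : ℂ} (ha : ‖a‖ < 1) : rho a < 1 := by
  unfold rho
  linarith

theorem DD_pos {a : ℂ} (ha : ‖a‖ < 1) : 0 < DD a := by
  unfold DD
  have h1 := lt_rho ha
  have h2 := norm_nonneg a
  nlinarith

theorem NN_nonneg (a w : ℂ) : 0 ≤ NN a w := by
  unfold NN
  positivity

/-- the quadratic equation -/
theorem quad (a w : ℂ) (s : ℝ) : DD a * s ^ 2 - 2 * cc a w * s - NN a w =
    s ^ 2 * rho a ^ 2 - ‖w - a + (s : ℂ) * a‖ ^ 2 := by
  rw [nsq]
  unfold DD cc NN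
  rw [nsq]
  simp
  ring

theorem disc_nonneg {a : ℂ} (ha : ‖a‖ < 1) (w : ℂ) : 0 ≤ cc a w ^ 2 + DD a * NN a w := by
  have h1 := DD_pos ha
  have h2 := NN_nonneg a w
  positivity

theorem ss_root {a : ℂ} (ha : ‖a‖ < 1) (w : ℂ) :
    DD a * ss a w ^ 2 - 2 * cc a w * ss a w - NN a w = 0 := by
  have h1 := DD_pos ha
  have h2 := Real.sq_sqrt (disc_nonneg ha w)
  have h3 : DD a * ss a w = cc a w + Real.sqrt (cc a w ^ 2 + DD a * NN a w) := by
    unfold ss
    field_simp
  have h4 : DD a * (DD a * ss a w ^ 2 - 2 * cc a w * ss a w - NN a w) = 0 := by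
    have : DD a * (DD a * ss a w ^ 2 - 2 * cc a w * ss a w - NN a w) =
        (DD a * ss a w) ^ 2 - 2 * cc a w * (DD a * ss a w) - DD a * NN a w := by ring
    rw [this, h3]
    nlinarith
  rcases mul_eq_zero.1 h4 with h | h
  · exact absurd h h1.ne'
  · exact h

theorem abs_le_sqrt {a : ℂ} (ha : ‖a‖ < 1) (w : ℂ) :
    |cc a w| ≤ Real.sqrt (cc a w ^ 2 + DD a * NN a w) := by
  apply Real.abs_le_sqrt
  have h1 := DD_pos ha
  have h2 := NN_nonneg a w
  nlinarith [mul_nonneg h1.le h2]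

theorem ss_nonneg {a : ℂ} (ha : ‖a‖ < 1) (w : ℂ) : 0 ≤ ss a w := by
  unfold ss
  apply div_nonneg _ (DD_pos ha).le
  have := neg_abs_le (cc a w)
  have := abs_le_sqrt ha w
  linarith

/-- uniqueness of the root -/
theorem ss_eq {a : ℂ} (ha : ‖a‖ < 1) (w : ℂ) (t : ℝ) (ht : 0 ≤ t)
    (h : DD a * t ^ 2 - 2 * cc a w * t - NN a w = 0) : ss a w = t := by
  have h1 := DD_pos ha
  have h2 := NN_nonneg a w
  have hs := ss_nonneg ha w
  have hr := ss_root ha w
  have h3 : (ss a w - t) * (DD a * (ss a w + t) - 2 * cc a w) = 0 := by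
    linarith [hr, h, (show (ss a w - t) * (DD a * (ss a w + t) - 2 * cc a w) =
      (DD a * ss a w ^ 2 - 2 * cc a w * ss a w - NN a w) -
      (DD a * t ^ 2 - 2 * cc a w * t - NN a w) by ring)]
  rcases mul_eq_zero.1 h3 with h4 | h4
  · linarith
  · -- `s + t = 2 c / D`, `s t = - N / D`
    have h5 : DD a * (ss a w * t) = - NN a w := by
      have h6 : DD a * (ss a w * t) = 2 * cc a w * t - DD a * t ^ 2 := by
        have h7 : DD a * ss a w = 2 * cc a w - DD a * t := by linarith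
        calc DD a * (ss a w * t) = (DD a * ss a w) * t := by ring
          _ = 2 * cc a w * t - DD a * t ^ 2 := by rw [h7]; ring
      linarith
    have h8 : 0 ≤ ss a w * t := mul_nonneg hs ht
    have h9 : NN a w = 0 := by nlinarith [mul_nonneg h1.le h8]
    -- then `w = a`, `c = 0`
    have hre : w.re - a.re = 0 := by
      unfold NN at h9
      nlinarith [sq_nonneg (w.re - a.re), sq_nonneg (w.im - a.im)]
    have him : w.im - a.im = 0 := by
      unfold NN at h9
      nlinarith [sq_nonneg (w.re - a.re), sq_nonneg (w.im - a.im)]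
    have hc : cc a w = 0 := by
      unfold cc
      rw [hre, him]
      ring
    rw [hc] at h4
    have h10 : ss a w + t = 0 := by
      have : DD a * (ss a w + t) = 0 := by linarith
      rcases mul_eq_zero.1 this with h | h
      · exact absurd h h1.ne'
      · exact h
    linarith

theorem norm_eq_of {a : ℂ} (ha : ‖a‖ < 1) (w : ℂ) : ‖w - a + (ss a w : ℂ) * a‖ = ss a w * rho a := by
  have h1 := quad a w (ss a w)
  rw [ss_root ha w] at h1
  have h2 : ‖w - a + (ss a w : ℂ) * a‖ ^ 2 = (ss a w * rho a) ^ 2 := by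
    rw [mul_pow]
    linarith
  exact (pow_left_inj₀ (norm_nonneg _) (mul_nonneg (ss_nonneg ha w) (rho_pos a).le)
    (by norm_num)).1 h2

theorem one_le_ss {a : ℂ} (ha : ‖a‖ < 1) {w : ℂ} (h : rho a ≤ ‖w‖) : 1 ≤ ss a w := by
  have h1 := quad a w 1
  have h2 : w - a + ((1 : ℝ) : ℂ) * a = w := by push_cast; ring
  rw [h2] at h1
  have h3 : rho a ^ 2 ≤ ‖w‖ ^ 2 := pow_le_pow_left₀ (rho_pos a).le h 2
  have hD := DD_pos ha
  have hr := ss_root ha w
  have hs := ss_nonneg ha w
  have hN := NN_nonneg a w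
  by_contra hlt
  push Not at hlt
  -- `q(1) ≤ 0`, `q(s) = 0`, `s < 1`: `(1 - s) (D (1 + s) - 2 c) ≤ 0`
  have h4 : (1 - ss a w) * (DD a * (1 + ss a w) - 2 * cc a w) ≤ 0 := by
    have : (1 - ss a w) * (DD a * (1 + ss a w) - 2 * cc a w) =
        (DD a * 1 ^ 2 - 2 * cc a w * 1 - NN a w) -
        (DD a * ss a w ^ 2 - 2 * cc a w * ss a w - NN a w) := by ring
    rw [this, hr]
    linarith
  have h5 : DD a * (1 + ss a w) - 2 * cc a w ≤ 0 := by
    by_contra hpos
    push Not at hpos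
    have := mul_pos (sub_pos.2 hlt) hpos
    linarith
  -- `D s = c + sqrt`, so `D s ≥ 2 c` or ...
  have h6 : DD a * ss a w = cc a w + Real.sqrt (cc a w ^ 2 + DD a * NN a w) := by
    unfold ss
    field_simp
  have h7 := abs_le_sqrt ha w
  have h8 := le_abs_self (cc a w)
  linarith

theorem rho_le_of {a : ℂ} (ha : ‖a‖ < 1) {w : ℂ} (h : 1 ≤ ss a w) : rho a ≤ ‖w‖ := by
  have h1 := quad a w 1
  have h2 : w - a + ((1 : ℝ) : ℂ) * a = w := by push_cast; ring
  rw [h2] at h1
  have hD := DD_pos ha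
  have hr := ss_root ha w
  have h6 : DD a * ss a w = cc a w + Real.sqrt (cc a w ^ 2 + DD a * NN a w) := by
    unfold ss
    field_simp
  have h7 := abs_le_sqrt ha w
  have h8 := le_abs_self (cc a w)
  have h4 : (1 - ss a w) * (DD a * (1 + ss a w) - 2 * cc a w) ≤ 0 := by
    apply mul_nonpos_of_nonpos_of_nonneg
    · linarith
    · nlinarith
  have h5 : (1 - ss a w) * (DD a * (1 + ss a w) - 2 * cc a w) =
        (DD a * 1 ^ 2 - 2 * cc a w * 1 - NN a w) -
        (DD a * ss a w ^ 2 - 2 * cc a w * ss a w - NN a w) := by ring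
  rw [h5, hr] at h4
  have h9 : rho a ^ 2 ≤ ‖w‖ ^ 2 := by linarith
  exact (pow_le_pow_iff_left₀ (rho_pos a).le (norm_nonneg _) (by norm_num)).1 h9

theorem ff_far {a z : ℂ} (h : rho a ≤ ‖z‖) : ff a z = z := by
  unfold ff
  have h1 : 1 - ‖z‖ / rho a ≤ 0 := by
    rw [sub_nonpos, one_le_div (rho_pos a)]
    exact h
  rw [max_eq_left h1]
  simp

theorem gg_far {a : ℂ} (ha : ‖a‖ < 1) {z : ℂ} (h : rho a ≤ ‖z‖) : gg a z = z := by
  unfold gg
  have h1 := one_le_ss ha h
  rw [max_eq_left (by linarith)]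
  simp

theorem gg_ff {a : ℂ} (ha : ‖a‖ < 1) (z : ℂ) : gg a (ff a z) = z := by
  rcases le_or_gt (rho a) ‖z‖ with h | h
  · rw [ff_far h, gg_far ha h]
  · have hr := rho_pos a
    have h1 : 0 ≤ 1 - ‖z‖ / rho a := by
      rw [sub_nonneg, div_le_one hr]
      exact h.le
    set t : ℝ := ‖z‖ / rho a with ht
    have ht0 : 0 ≤ t := by positivity
    have hf : ff a z = z + ((1 - t : ℝ) : ℂ) * a := by
      unfold ff
      rw [max_eq_right h1]
    have hs : ss a (ff a z) = t := by
      apply ss_eq ha _ _ ht0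
      rw [quad]
      have h2 : ff a z - a + (t : ℂ) * a = z := by
        rw [hf]
        push_cast
        ring
      rw [h2, ht]
      field_simp
      ring
    unfold gg
    rw [hs, max_eq_right h1, hf]
    ring

theorem ff_gg {a : ℂ} (ha : ‖a‖ < 1) (w : ℂ) : ff a (gg a w) = w := by
  rcases le_or_gt 1 (ss a w) with h | h
  · have h1 := rho_le_of ha h
    rw [gg_far ha h1, ff_far h1]
  · have hr := rho_pos a
    have hg : gg a w = w - a + (ss a w : ℂ) * a := by
      unfold gg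
      rw [max_eq_right (by linarith)]
      push_cast
      ring
    have hn : ‖gg a w‖ = ss a w * rho a := by
      rw [hg]
      exact norm_eq_of ha w
    unfold ff
    rw [hn]
    have h2 : ss a w * rho a / rho a = ss a w := by field_simp
    rw [h2, max_eq_right (by linarith), hg]
    push_cast
    ring

theorem ff_lt {b : ℂ} (hb : ‖b‖ < 1) {z : ℂ} (hz : ‖z‖ < 1) : ‖ff b z‖ < 1 := by
  rcases le_or_gt (rho b) ‖z‖ with h | h
  · rw [ff_far h]; exact hz
  · have hr := rho_pos b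
    have hr1 := rho_lt hb
    set t : ℝ := ‖z‖ / rho b with ht
    have ht0 : 0 ≤ t := by positivity
    have ht1 : t < 1 := by
      rw [ht, div_lt_one hr]
      exact h
    have hz2 : ‖z‖ = t * rho b := by
      rw [ht]
      field_simp
    unfold ff
    rw [← ht, max_eq_right (by linarith)]
    calc ‖z + ((1 - t : ℝ) : ℂ) * b‖ ≤ ‖z‖ + ‖((1 - t : ℝ) : ℂ) * b‖ := norm_add_le _ _
      _ = t * rho b + (1 - t) * ‖b‖ := by
          rw [norm_mul, Complex.norm_real, Real.norm_of_nonneg (by linarith), hz2]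
      _ < 1 := by nlinarith [norm_nonneg b]

theorem gg_lt {a : ℂ} (ha : ‖a‖ < 1) {z : ℂ} (hz : ‖z‖ < 1) : ‖gg a z‖ < 1 := by
  rcases le_or_gt 1 (ss a z) with h | h
  · rw [gg_far ha (rho_le_of ha h)]; exact hz
  · have hg : gg a z = z - a + (ss a z : ℂ) * a := by
      unfold gg
      rw [max_eq_right (by linarith)]
      push_cast
      ring
    rw [hg, norm_eq_of ha z]
    have h1 := ss_nonneg ha z
    have h2 := rho_lt ha
    have h3 := rho_pos a
    nlinarith

theorem continuous_rho : Continuous rho := by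
  unfold rho
  fun_prop

theorem continuous_ff : Continuous (fun q : ℂ × ℂ => ff q.1 q.2) := by
  unfold ff
  have h1 : Continuous (fun q : ℂ × ℂ => ‖q.2‖ / rho q.1) :=
    Continuous.div (by fun_prop) (continuous_rho.comp continuous_fst)
      (fun q => (rho_pos q.1).ne')
  have h2 : Continuous (fun q : ℂ × ℂ => ((max 0 (1 - ‖q.2‖ / rho q.1) : ℝ) : ℂ)) :=
    Complex.continuous_ofReal.comp (continuous_const.max (continuous_const.sub h1))
  exact continuous_snd.add (h2.mul continuous_fst)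

theorem continuousOn_ss : ContinuousOn (fun q : ℂ × ℂ => ss q.1 q.2) {q | ‖q.1‖ < 1} := by
  have hc : Continuous (fun q : ℂ × ℂ => cc q.1 q.2) := by
    unfold cc
    fun_prop
  have hN : Continuous (fun q : ℂ × ℂ => NN q.1 q.2) := by
    unfold NN
    fun_prop
  have hD : Continuous (fun q : ℂ × ℂ => DD q.1) := by
    unfold DD rho
    fun_prop
  unfold ss
  apply ContinuousOn.div
  · exact (hc.add (Real.continuous_sqrt.comp ((hc.pow 2).add (hD.mul hN)))).continuousOn
  · exact hD.continuousOn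
  · intro q hq
    exact (DD_pos hq).ne'

theorem continuousOn_gg : ContinuousOn (fun q : ℂ × ℂ => gg q.1 q.2) {q | ‖q.1‖ < 1} := by
  unfold gg
  have h2 : ContinuousOn (fun q : ℂ × ℂ => ((max 0 (1 - ss q.1 q.2) : ℝ) : ℂ))
      {q | ‖q.1‖ < 1} := by
    apply Complex.continuous_ofReal.comp_continuousOn
    exact (continuous_const.max (continuous_const.sub continuous_id)).comp_continuousOn
      continuousOn_ss
  exact continuousOn_snd.sub (h2.mul continuousOn_fst)

theorem goalPU1 : GoalPU1 := by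
  refine ⟨fun a b z => ff b (gg a z), ?_, ?_, ?_, ?_, ?_, ?_⟩
  · intro R hR
    refine ⟨(1 + R) / 2, by linarith, ?_⟩
    intro a b ha hb z hz
    have h1 : rho a ≤ ‖z‖ := by unfold rho; linarith
    have h2 : rho b ≤ ‖z‖ := by unfold rho; linarith
    change ff b (gg a z) = z
    rw [gg_far (lt_of_le_of_lt ha hR) h1, ff_far h2]
  · intro a b ha hb
    have h1 : gg a a = 0 := by
      have h2 : ss a a = 0 := by
        unfold ss cc NN
        simp
      unfold gg
      rw [h2]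
      simp
    change ff b (gg a a) = b
    rw [h1]
    unfold ff
    simp
  · intro a z ha
    exact ff_gg ha z
  · intro a b ha hb z
    change ff a (gg b (ff b (gg a z))) = z
    rw [gg_ff hb, ff_gg ha]
  · intro a b z ha hb hz
    exact ff_lt hb (gg_lt ha hz)
  · have h1 : ContinuousOn (fun q : ℂ × ℂ × ℂ => gg q.1 q.2.2) {q | ‖q.1‖ < 1 ∧ ‖q.2.1‖ < 1} := by
      have : ContinuousOn (fun q : ℂ × ℂ × ℂ => (q.1, q.2.2)) {q | ‖q.1‖ < 1 ∧ ‖q.2.1‖ < 1} := by
        fun_prop
      exact continuousOn_gg.comp this (fun q hq => hq.1)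
    have h2 : ContinuousOn (fun q : ℂ × ℂ × ℂ => (q.2.1, gg q.1 q.2.2))
        {q | ‖q.1‖ < 1 ∧ ‖q.2.1‖ < 1} :=
      ContinuousOn.prodMk (by fun_prop) h1
    exact continuous_ff.comp_continuousOn h2

end Pool.Agent.Helper93.LN
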